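import Pool.Agent.H89.CY.Gen

/-!
[H69 CQ GEN] The method of helper89 (H89/CY) for an arbitrary condition `P n` which forces the gap `c (n+1) - c n` to be at least
`(k + 1) D` (text of H89/CY/Cnt and H89/CY/Gen with `P` in place of `Fails`).
-/

namespace Pool.Agent.H69.CQ

open Finset Classical Pool.Agent.H89.CY

theorem div_lt (P : ℕ → Prop) (D k A : ℕ) (hD : 2 ≤ D)
    (hP : ∀ n, 2 ≤ n → P n → A ≤ c n → c n + (k + 1) * D ≤ c (n + 1)) {n m : ℕ}
    (hn : 2 ≤ n) (hf : P n) (hAn : A ≤ c n) (hm : n < m) : c n / D < c m / D := by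
  have h1 := hP n hn hf hAn
  have h2 : c (n + 1) ≤ c m := by
    rcases Nat.lt_or_ge (n + 1) m with h | h
    · exact (c_lt (n + 1) m (by omega) h).le
    · have : n + 1 = m := by omega
      rw [this]
  have h3 : c n + D ≤ c m := by nlinarith
  have hD0 : 0 < D := by omega
  calc c n / D < c n / D + 1 := Nat.lt_succ_self _
    _ = (c n + D) / D := (Nat.add_div_right (c n) hD0).symm
    _ ≤ c m / D := Nat.div_le_div_right h3

theorem cnt (P : ℕ → Prop) (D k A X : ℕ) (hD : 2 ≤ D) (hk : 1 ≤ k)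
    (hP : ∀ n, 2 ≤ n → P n → A ≤ c n → c n + (k + 1) * D ≤ c (n + 1)) :
    {n | 2 ≤ n ∧ P n ∧ A ≤ c n ∧ c n ≤ X}.ncard ≤
      {t | t ≤ X / D + 1 ∧ ∀ j < k, ¬ Cyc (1 + D * (t + j))}.ncard := by
  refine Set.ncard_le_ncard_of_injOn (fun n => c n / D + 1) ?_ ?_ ?_
  · rintro n ⟨hn, hf, hAn, hX⟩
    have h1 := hP n hn hf hAn
    refine ⟨Nat.add_le_add_right (Nat.div_le_div_right hX) 1, ?_⟩
    intro j hj
    have h2 : D * (c n / D) ≤ c n := Nat.mul_div_le (c n) D
    have h3 : c n < D * (c n / D) + D := by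
      have := Nat.lt_mul_div_succ (c n) (show 0 < D by omega)
      rw [Nat.mul_add, Nat.mul_one] at this
      exact this
    have h4 : D * (c n / D + 1 + j) = D * (c n / D) + D + D * j := by ring
    have h5 : D * j + D ≤ D * k := by
      have : D * (j + 1) ≤ D * k := Nat.mul_le_mul_left D hj
      rw [Nat.mul_add, Nat.mul_one] at this
      exact this
    have h6 : (k + 1) * D = D * k + D := by ring
    apply no_cyc n _ (by omega)
    · rw [h4]
      omega
    · rw [h4]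
      omega
  · rintro n ⟨hn, hf, hAn, _⟩ m ⟨hm, hfm, hAm, _⟩ h
    have h' : c n / D = c m / D := Nat.succ_injective h
    rcases Nat.lt_trichotomy n m with h1 | h1 | h1
    · have := div_lt P D k A hD hP hn hf hAn h1
      omega
    · exact h1
    · have := div_lt P D k A hD hP hm hfm hAm h1
      omega
  · exact (Set.finite_Iic (X / D + 1)).subset (fun t ht => ht.1)

/-- the number of the `n` with `P n` and `c n ≤ X` -/
noncomputable def FX (P : ℕ → Prop) (X : ℕ) : ℕ := {n | 2 ≤ n ∧ P n ∧ c n ≤ X}.ncard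

theorem FX_le (P : ℕ → Prop) (A X : ℕ) : FX P X ≤ A + {n | 2 ≤ n ∧ P n ∧ A ≤ c n ∧ c n ≤ X}.ncard := by
  unfold FX
  have hf : {n | 2 ≤ n ∧ P n ∧ A ≤ c n ∧ c n ≤ X}.Finite := by
    apply (Set.finite_Iic X).subset
    intro n hn
    exact (c_ge n (by have := hn.1; omega)).trans hn.2.2.2
  have h1 : {n | 2 ≤ n ∧ P n ∧ c n ≤ X} ⊆
      (range A : Set ℕ) ∪ {n | 2 ≤ n ∧ P n ∧ A ≤ c n ∧ c n ≤ X} := by
    rintro n ⟨h2, h3, h4⟩
    rcases lt_or_ge (c n) A with h | h
    · left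
      have := c_ge n (by omega)
      simp only [coe_range, Set.mem_Iio]
      omega
    · right
      exact ⟨h2, h3, h, h4⟩
  refine (Set.ncard_le_ncard h1 ((finite_toSet _).union hf)).trans ?_
  refine (Set.ncard_union_le _ _).trans ?_
  rw [Set.ncard_coe_finset, card_range]

theorem gen (P : ℕ → Prop) (w k z D r M A X Y : ℕ) (hwk : w < k) (hD : D = primorial w) (hD2 : 2 ≤ D) (hz : 1 ≤ z)
    
    (hP : ∀ n, 2 ≤ n → P n → A ≤ c n → c n + (k + 1) * D ≤ c (n + 1)) (h1 : ∑ p ∈ PR w k, 1 / (p : ℝ) ≤ 17 / 20)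
    (h2 : 20 * (PR w k).card ≤ k) (hM : M ≤ k / 10) (hY : Y = 1 + D * (X / D + 1 + k)) :
    (FX P X : ℝ) ≤ A + ((((X / D + 2 : ℕ) : ℝ) + (∏ p ∈ PR w k, p : ℕ)) *
        ((1 - ∏ p ∈ PR k z, (1 - 1 / (p : ℝ))) ^ M +
        2 * Real.exp (9 * (k * ∑ p ∈ PR k z, 1 / (p : ℝ))) / 3 ^ r)
      + 4 * (∏ p ∈ PR w k, p : ℕ) * (3 * ((z : ℝ) * k + 1)) ^ r) + k * (Y * (2 + Real.log Y) / z) := by
  have e1 := FX_le P A X
  have e2 := cnt P D k A X hD2 (by omega) hP
  have e3 := two_sets w k z D X hD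
  have e4 := sv w k z D (X / D + 2) r M hwk hD (by
    intro a
    have := jst w k D a hD h1 h2
    have h5 : (M : ℝ) ≤ (k : ℝ) / 10 := by
      have : (M : ℝ) ≤ ((k / 10 : ℕ) : ℝ) := by exact_mod_cast hM
      exact this.trans Nat.cast_div_le
    exact_mod_cast h5.trans this)
  have e5 : ((∑ j ∈ range k, ((range (X / D + 2)).filter (fun t => Kill z (1 + D * (t + j)))).card : ℕ) : ℝ) ≤
      k * (Y * (2 + Real.log Y) / z) := by
    push_cast
    refine (sum_le_sum fun j hj => kill_j k z D X j Y (by omega) hz (mem_range.1 hj) hY).trans ?_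
    rw [sum_const, card_range, nsmul_eq_mul]
  have e6 : (FX P X : ℝ) ≤ A + ((((range (X / D + 2)).filter
      (fun t => ∀ j < k, ∃ p ∈ PR w z, p ∣ 1 + D * (t + j))).card : ℝ) +
      ((∑ j ∈ range k, ((range (X / D + 2)).filter (fun t => Kill z (1 + D * (t + j)))).card : ℕ) : ℝ)) := by
    exact_mod_cast (e1.trans (by omega))
  linarith

end Pool.Agent.H69.CQ
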